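import Pool.Agent.X155.McBaer

/-! MP_a7b7fa_al, Q1: there is a pseudocentral Baer group that is not a Fitting group. -/

namespace Pool.Agent.Results.MP_a7b7fa_al.PseudocentralBaer

/-- The pseudocentre `P(G) = ⋂_g C_G(g)^G`. -/
def pseudocentre (G : Type) [Group G] : Subgroup G :=
  ⨅ g : G, Subgroup.normalClosure (Subgroup.centralizer {g} : Set G)

/-- `G` is pseudocentral: `P(G) = G`. -/
def IsPseudocentral (G : Type) [Group G] : Prop := pseudocentre G = ⊤

/-- `G` is a Fitting group: it is generated by its nilpotent normal subgroups. -/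
def IsFittingGroup (G : Type) [Group G] : Prop :=
  sSup {N : Subgroup G | N.Normal ∧ Group.IsNilpotent N} = ⊤

/-- `G` is a Baer group: every cyclic subgroup of `G` is subnormal in `G`. -/
def IsBaerGroup (G : Type) [Group G] : Prop :=
  ∀ g : G, (Subgroup.zpowers g).IsSubnormal

/-- There is a pseudocentral Baer group that is not a Fitting group. -/
theorem result : ∃ (G : Type) (_ : Group G),
    IsPseudocentral G ∧ IsBaerGroup G ∧ ¬ IsFittingGroup G := by
  refine ⟨Pool.Agent.X155.McPoly.G, inferInstance, ?_, Pool.Agent.X155.McPoly.G.baer, ?_⟩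
  · rw [IsPseudocentral, pseudocentre, iInf_eq_top]
    exact Pool.Agent.X155.McPoly.G.pseudo
  · intro h
    have hle : sSup {N : Subgroup Pool.Agent.X155.McPoly.G | N.Normal ∧ Group.IsNilpotent N} ≤
        { carrier := {x | x.u = 1}
          mul_mem' := by
            intro x y hx hy
            have hx : x.u = 1 := hx
            have hy : y.u = 1 := hy
            change x.u * y.u = 1
            rw [hx, hy, one_mul]
          one_mem' := rfl
          inv_mem' := by
            intro x hx
            have hx : x.u = 1 := hx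
            change x.u⁻¹ = 1
            rw [hx, inv_one] } := by
      apply sSup_le
      rintro N ⟨hN, hnil⟩ x hx
      exact Pool.Agent.X155.McPoly.G.nilp N hN hnil x hx
    rw [h] at hle
    have h01 : (0 : ℚ) < 1 := one_pos
    have h1 : (Pool.Agent.X155.McPoly.G.ta 0 1 h01) = 1 :=
      hle (Subgroup.mem_top (Pool.Agent.X155.McPoly.G.e (Pool.Agent.X155.McPoly.G.ta 0 1 h01)))
    have h2 : (Pool.Agent.X155.McPoly.tau 0 1 h01) = 1 := congrArg Subtype.val h1
    have h3 := Pool.Agent.X155.McPoly.tau_self h01
    rw [h2] at h3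
    have h4 : (MvPolynomial.X 1 : Pool.Agent.X155.McPoly.P) = 0 := by
      have h5 : (1 : Pool.Agent.X155.McPoly.A) (MvPolynomial.X 0) = MvPolynomial.X 0 := rfl
      rw [h5] at h3
      linear_combination -h3
    exact MvPolynomial.X_ne_zero 1 h4

end Pool.Agent.Results.MP_a7b7fa_al.PseudocentralBaer
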